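import Pool.Agent.W123.GS.Sieve

set_option autoImplicit false

/-!
# Transfer to the final statements
-/

namespace Pool.Agent.W123.GS

open Finset

open Classical in
lemma conclude (P : ℕ → Prop) (c₁ c₂ δ L lam κ η : ℝ) (K' X : ℕ) (b0 b1 : ℕ → ℕ)
    (h0 : ∀ n, X < n → n ≤ 2 * X → b0 n ≤ ((range (Nat.log 2 X + 1)).filter
      (fun j => L ≤ (2 : ℝ) ^ j ∧ ¬ Good P c₁ c₂ δ L n j)).card)
    (h1 : ∀ n, X < n → n ≤ 2 * X → b1 n ≤ ((range (Nat.log 2 X + 1)).filter
      (fun j => L ≤ (2 : ℝ) ^ j ∧ ¬ Good P 0 lam δ L n j)).card)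
    (h : κ * X ≤ (((Finset.Ioc X (2 * X)).filter (fun n =>
        ((range (Nat.log 2 X + 1)).filter (fun j => L ≤ (2 : ℝ) ^ j ∧
          ¬ Good P c₁ c₂ δ L n j)).card ≤ K')).card : ℝ) ∧
      (((Finset.Ioc X (2 * X)).filter (fun n =>
        K' < ((range (Nat.log 2 X + 1)).filter (fun j => L ≤ (2 : ℝ) ^ j ∧
          ¬ Good P 0 lam δ L n j)).card)).card : ℝ) ≤ η * X) :
    κ * X ≤ (((Finset.Ioc X (2 * X)).filter (fun n => b0 n ≤ K')).card : ℝ) ∧
      (((Finset.Ioc X (2 * X)).filter (fun n => K' < b1 n)).card : ℝ) ≤ η * X := by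
  constructor
  · refine h.1.trans ?_
    have h2 := Finset.card_le_card (s := (Finset.Ioc X (2 * X)).filter (fun n =>
        ((range (Nat.log 2 X + 1)).filter (fun j => L ≤ (2 : ℝ) ^ j ∧
          ¬ Good P c₁ c₂ δ L n j)).card ≤ K')) (t := (Finset.Ioc X (2 * X)).filter (fun n => b0 n ≤ K'))
      (by
        intro n hn
        rw [mem_filter, mem_Ioc] at hn
        rw [mem_filter, mem_Ioc]
        exact ⟨hn.1, (h0 n hn.1.1 hn.1.2).trans hn.2⟩)
    exact_mod_cast h2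
  · refine le_trans ?_ h.2
    have h2 := Finset.card_le_card (t := (Finset.Ioc X (2 * X)).filter (fun n =>
        K' < ((range (Nat.log 2 X + 1)).filter (fun j => L ≤ (2 : ℝ) ^ j ∧
          ¬ Good P 0 lam δ L n j)).card)) (s := (Finset.Ioc X (2 * X)).filter (fun n => K' < b1 n))
      (by
        intro n hn
        rw [mem_filter, mem_Ioc] at hn
        rw [mem_filter, mem_Ioc]
        exact ⟨hn.1, hn.2.trans_le (h1 n hn.1.1 hn.1.2)⟩)
    exact_mod_cast h2

end Pool.Agent.W123.GS
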