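import Pool.Agent.W123.GS.Abs

set_option autoImplicit false

/-!
# All but boundedly many scales: proof of the abstract theorem
-/

namespace Pool.Agent.W123.GS

open Finset Pool.Agent.W123.RP

/-- a good level gives a good scale -/
lemma good_of_level (P P' : ℕ → Prop) [DecidablePred P] [DecidablePred P'] (hPP : ∀ n, P n → P' n)
    (c₁ c₂ δ L : ℝ) (hc₂ : 0 < c₂) (hL0 : 0 < L) (q : ℕ) (hq : 32 * c₂ ≤ δ * 2 ^ q)
    (A' w l n D : ℕ) (hw : 1 ≤ w) (hLw : L ≤ w) (hD1 : 1 ≤ D) (hD : 2 ^ (l + q) * w = 8 * D) (j : ℕ)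
    (hj : D = 2 ^ j)
    (hreg : ∀ a b : ℕ, a ≤ n → n ≤ b → (b : ℝ) - a = 8 * D →
      c₁ * ((b : ℝ) - a) / L ≤ co P a b ∧ (co P' a b : ℝ) ≤ c₂ * ((b : ℝ) - a) / L)
    (hδ : 0 < δ)
    (hbad : ¬ Bad (fun i => (co P 0 (A' + i * w) : ℝ)) q (δ / 48) l
      ((n - A' - 1) / (2 ^ (l + q) * w)))
    (hc : ∃ c, A' + c * (8 * D) ≤ n - D ∧ n + D ≤ A' + (c + 1) * (8 * D)) (hnD : D < n) :
    Good P c₁ c₂ δ L n j := by
  obtain ⟨c, hc1, hc2⟩ := hc
  have hW : 0 < 8 * D := by omega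
  have hidx : (n - A' - 1) / (2 ^ (l + q) * w) = c := by
    rw [hD]
    apply Nat.div_eq_of_lt_le
    · omega
    · have : (c + 1) * (8 * D) ≥ 1 := by nlinarith
      omega
  rw [hidx] at hbad
  have hdisc := disc (P := P) A' w q l c hw (δ / 48) hbad
  have e1 : c * 2 ^ (l + q) * w = c * (8 * D) := by rw [mul_assoc, hD]
  have e2 : (c + 1) * 2 ^ (l + q) * w = (c + 1) * (8 * D) := by rw [mul_assoc, hD]
  rw [e1, e2] at hdisc
  have hDr : (2 : ℝ) ^ (l + q) * w = 8 * D := by exact_mod_cast hD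
  rw [hDr] at hdisc
  have hDpos : (0 : ℝ) < D := by exact_mod_cast hD1
  have hlen : ((A' + (c + 1) * (8 * D) : ℕ) : ℝ) - ((A' + c * (8 * D) : ℕ) : ℝ) = 8 * D := by
    push_cast; ring
  obtain ⟨r1, r2⟩ := hreg (A' + c * (8 * D)) (A' + (c + 1) * (8 * D)) (by omega) (by omega) hlen
  rw [hlen] at r1 r2
  obtain ⟨B, hB⟩ : ∃ B : ℝ, B = (co P (A' + c * (8 * D)) (A' + (c + 1) * (8 * D)) : ℝ) := ⟨_, rfl⟩
  have r3 : B ≤ c₂ * (8 * D) / L := by
    refine le_trans ?_ r2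
    rw [hB]
    have : co P (A' + c * (8 * D)) (A' + (c + 1) * (8 * D)) ≤
        co P' (A' + c * (8 * D)) (A' + (c + 1) * (8 * D)) := by
      unfold co
      apply Finset.card_le_card
      intro x hx
      rw [mem_filter] at hx ⊢
      exact ⟨hx.1, hPP x hx.2⟩
    exact_mod_cast this
  rw [← hB] at r1 hdisc
  have h2q : (0 : ℝ) < 2 ^ q := by positivity
  refine ⟨B * L / (8 * D), ?_, ?_, ?_⟩
  · rw [le_div_iff₀ (by positivity)]
    rw [div_le_iff₀ hL0] at r1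
    linarith
  · rw [div_le_iff₀ (by positivity)]
    rw [le_div_iff₀ hL0] at r3
    linarith
  · intro u v hu huv hv
    have h1 := hdisc u v (by omega) huv (by omega)
    have e3 : B * L / (8 * D) * ((v : ℝ) - u) / L = ((v : ℝ) - u) * (B / (8 * D)) := by
      field_simp
    rw [e3]
    refine h1.trans ?_
    have hDj : (D : ℝ) = 2 ^ j := by rw [hj]; push_cast; rfl
    rw [← hDj]
    have a1 : 2 * (B / 2 ^ q) ≤ δ / 2 * D / L := by
      calc 2 * (B / 2 ^ q) ≤ 2 * (c₂ * (8 * D) / L / 2 ^ q) := by gcongr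
        _ = 16 * c₂ * D / (L * 2 ^ q) := by field_simp; ring
        _ ≤ δ / 2 * D / L := by
          rw [div_le_div_iff₀ (by positivity) hL0]
          have : 16 * c₂ ≤ δ / 2 * 2 ^ q := by linarith
          calc 16 * c₂ * D * L ≤ δ / 2 * 2 ^ q * D * L := by gcongr
            _ = _ := by ring
    have a2 : (2 + 2 ^ q) * (δ / 48 * 2 ^ l) ≤ δ / 2 * D / L := by
      have b1 : (1 : ℝ) ≤ 2 ^ q := one_le_pow₀ (by norm_num)
      have b2 : (2 : ℝ) + 2 ^ q ≤ 3 * 2 ^ q := by linarith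
      have b3 : (2 : ℝ) ^ q * 2 ^ l * w = 8 * D := by
        rw [← hDr, pow_add]; ring
      have b4 : (2 : ℝ) ^ q * 2 ^ l * L ≤ 8 * D := by
        rw [← b3]; gcongr
      rw [le_div_iff₀ hL0]
      calc (2 + 2 ^ q) * (δ / 48 * 2 ^ l) * L ≤ (3 * 2 ^ q) * (δ / 48 * 2 ^ l) * L := by gcongr
        _ = δ / 16 * (2 ^ q * 2 ^ l * L) := by ring
        _ ≤ δ / 16 * (8 * D) := by gcongr
        _ = δ / 2 * D := by ring
    calc 2 * (B / 2 ^ q) + (2 + 2 ^ q) * (δ / 48 * 2 ^ l) ≤ δ / 2 * D / L + δ / 2 * D / L :=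
          add_le_add a1 a2
      _ = δ * D / L := by ring

open Classical in
/-- **The core estimate.** -/
theorem scales_core (c₁ c₂ K C2 η δ : ℝ) (hc₂ : 0 < c₂) (hK : 1 ≤ K) (hC2 : 0 < C2) (hη : 0 < η)
    (hη1 : η ≤ 1) (hδ : 0 < δ) :
    ∃ (K' : ℕ) (B0 : ℝ), 0 < B0 ∧ ∀ (P P' : ℕ → Prop) (X : ℕ) (L : ℝ),
      2 ≤ L → B0 * L ^ 2 ≤ X → (∀ n, P n → P' n) →
      ∑ n ∈ Finset.Ico X (2 * X + 1), ((co P' n (n + ⌊L⌋₊) : ℝ)) ^ 2 ≤ C2 * X →
      (((Finset.Ioc X (2 * X)).filter (fun n => (∀ a b : ℕ, a ≤ n → n ≤ b →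
        K * L ≤ (b : ℝ) - a → (b : ℝ) - a ≤ n →
          c₁ * ((b : ℝ) - a) / L ≤ co P a b ∧ (co P' a b : ℝ) ≤ c₂ * ((b : ℝ) - a) / L) ∧
        K' < ((range (Nat.log 2 X + 1)).filter (fun j => L ≤ (2 : ℝ) ^ j ∧
          ¬ Good P c₁ c₂ δ L n j)).card)).card : ℝ) ≤ η * X := by
  have hKpos : 0 < K := by linarith
  -- parameters
  obtain ⟨q, hq⟩ : ∃ q : ℕ, 32 * c₂ / δ ≤ 2 ^ q := by
    obtain ⟨q, hq⟩ := pow_unbounded_of_one_lt (32 * c₂ / δ) (one_lt_two : (1 : ℝ) < 2)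
    exact ⟨q, hq.le⟩
  have hq' : 32 * c₂ ≤ δ * 2 ^ q := by
    rw [div_le_iff₀ hδ] at hq; linarith
  set τ : ℝ := δ / 48 with hτ
  have hτ0 : 0 < τ := by positivity
  set C4 : ℝ := 72 * (q * 2 ^ q) * C2 / τ ^ 2 with hC4
  have hC40 : 0 ≤ C4 := by positivity
  obtain ⟨K1, hK1⟩ : ∃ K1 : ℕ, 4 * C4 / η ≤ K1 := exists_nat_ge _
  obtain ⟨e1, he1⟩ : ∃ e1 : ℕ, K ≤ 2 ^ e1 := by
    obtain ⟨e, he⟩ := pow_unbounded_of_one_lt K (one_lt_two : (1 : ℝ) < 2)
    exact ⟨e, he.le⟩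
  obtain ⟨e2, he2⟩ : ∃ e2 : ℕ, 128 / η ≤ 2 ^ e2 := by
    obtain ⟨e, he⟩ := pow_unbounded_of_one_lt (128 / η) (one_lt_two : (1 : ℝ) < 2)
    exact ⟨e, he.le⟩
  refine ⟨(e1 + q) + (e2 + 2) + (K1 + K1), 256 * 2 ^ (q + 8) / η + 64 / η + 8, by positivity, ?_⟩
  intro P P' X L hL2 hX hPP hmom
  have hL0 : 0 < L := by linarith
  have hL1 : 1 ≤ L := by linarith
  have hLsq : L ≤ L ^ 2 := by nlinarith
  have hL4 : 4 ≤ L ^ 2 := by nlinarith
  have hXsplit : 256 * 2 ^ (q + 8) / η * L ^ 2 + 64 / η * L ^ 2 + 8 * L ^ 2 ≤ X := by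
    linarith
  have t2 : 0 ≤ 256 * 2 ^ (q + 8) / η * L ^ 2 := by positivity
  have t3 : 0 ≤ 64 / η * L ^ 2 := by positivity
  have t4 : 0 ≤ 8 * L ^ 2 := by positivity
  have hXpos : (0 : ℝ) < X := by linarith
  have hXge : (32 : ℝ) ≤ X := by linarith
  -- base length
  obtain ⟨j0, hj0a, hj0b⟩ : ∃ j0 : ℕ, L ≤ (2 : ℝ) ^ j0 ∧ (2 : ℝ) ^ j0 < 2 * L := by
    have h1 : ∃ j : ℕ, L ≤ (2 : ℝ) ^ j := by
      obtain ⟨j, hj⟩ := pow_unbounded_of_one_lt L (one_lt_two : (1 : ℝ) < 2)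
      exact ⟨j, hj.le⟩
    refine ⟨Nat.find h1, Nat.find_spec h1, ?_⟩
    rcases Nat.eq_zero_or_pos (Nat.find h1) with h | h
    · rw [h, pow_zero]; linarith
    · have h2 := Nat.find_min h1 (m := Nat.find h1 - 1) (by omega)
      rw [not_le] at h2
      have h3 : (2 : ℝ) ^ (Nat.find h1) = 2 ^ (Nat.find h1 - 1) * 2 := by
        rw [← pow_succ]; congr 1; omega
      linarith
  -- top length
  obtain ⟨J, hJa, hJb⟩ : ∃ J : ℕ, (2 : ℝ) ^ J ≤ η * X / 64 ∧ η * X / 64 < (2 : ℝ) ^ (J + 1) := by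
    have h1 : ∃ j : ℕ, η * X / 64 < (2 : ℝ) ^ (j + 1) := by
      obtain ⟨j, hj⟩ := pow_unbounded_of_one_lt (η * X / 64) (one_lt_two : (1 : ℝ) < 2)
      exact ⟨j, hj.trans (pow_lt_pow_right₀ (by norm_num) (Nat.lt_succ_self j))⟩
    refine ⟨Nat.find h1, ?_, Nat.find_spec h1⟩
    rcases Nat.eq_zero_or_pos (Nat.find h1) with h | h
    · rw [h, pow_zero]
      have h2 : 64 / η * L ^ 2 ≤ X := by linarith
      rw [div_mul_eq_mul_div, div_le_iff₀ hη] at h2
      rw [le_div_iff₀ (by norm_num)]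
      nlinarith
    · have h2 := Nat.find_min h1 (m := Nat.find h1 - 1) (by omega)
      rw [not_lt] at h2
      have h3 : Nat.find h1 - 1 + 1 = Nat.find h1 := by omega
      rw [h3] at h2
      exact h2
  have h2J : (2 : ℝ) ^ J ≤ X / 64 := by
    refine hJa.trans ?_
    rw [div_le_div_iff_of_pos_right (by norm_num)]
    nlinarith
  -- T, w
  set T : ℕ := ⌊L⌋₊ with hT
  set w : ℕ := 2 ^ j0 with hw
  have hwr : (w : ℝ) = 2 ^ j0 := by rw [hw]; push_cast; rfl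
  have hTL : (T : ℝ) ≤ L := Nat.floor_le hL0.le
  have hTL2 : L < T + 1 := Nat.lt_floor_add_one L
  have hT2 : 2 ≤ T := Nat.le_floor (by exact_mod_cast hL2)
  have hT2r : (2 : ℝ) ≤ T := by exact_mod_cast hT2
  have hTw : T ≤ w := by
    have : (T : ℝ) ≤ w := by rw [hwr]; linarith
    exact_mod_cast this
  have hw3 : w ≤ 3 * T := by
    have h1 : (w : ℝ) < 2 * (T + 1) := by rw [hwr]; linarith
    have h2 : w < 2 * (T + 1) := by exact_mod_cast h1
    omega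
  have hw1 : 1 ≤ w := Nat.one_le_two_pow
  have hbig : 2 ^ (q + 8) * (2 : ℝ) ^ j0 ≤ 2 ^ J := by
    have h1 : 256 * 2 ^ (q + 8) / η * L ^ 2 ≤ X := by linarith
    rw [div_mul_eq_mul_div, div_le_iff₀ hη] at h1
    have h2 : η * X / 64 < 2 * 2 ^ J := by rw [pow_succ] at hJb; linarith
    have h3 : (0 : ℝ) < 2 ^ (q + 8) := by positivity
    have h4 : 256 * 2 ^ (q + 8) * L ≤ η * X := by
      calc 256 * 2 ^ (q + 8) * L ≤ 256 * 2 ^ (q + 8) * L ^ 2 := by gcongr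
        _ ≤ X * η := h1
        _ = η * X := mul_comm _ _
    calc 2 ^ (q + 8) * (2 : ℝ) ^ j0 ≤ 2 ^ (q + 8) * (2 * L) := by gcongr
      _ ≤ 2 ^ J := by linarith
  have hj0J : j0 + (q + 8) ≤ J := by
    rw [← pow_add] at hbig
    have := (pow_le_pow_iff_right₀ (one_lt_two : (1 : ℝ) < 2)).1 hbig
    omega
  obtain ⟨r, hr⟩ : ∃ r, J = j0 + r := ⟨J - j0, by omega⟩
  have hqr : q ≤ r := by omega
  have h2Jw : 2 ^ J = 2 ^ r * w := by rw [hr, pow_add, hw, mul_comm]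
  have h2Jpos : 1 ≤ 2 ^ J := Nat.one_le_two_pow
  have h2JX : 64 * 2 ^ J ≤ X := by
    have h1 : (64 : ℝ) * 2 ^ J ≤ X := by linarith
    exact_mod_cast h1
  have hTJ : 3 * T ≤ 2 ^ J := by
    have h1 : 2 ^ (q + 8) * 2 ^ j0 ≤ 2 ^ J := by exact_mod_cast hbig
    have h2 : 256 * w ≤ 2 ^ (q + 8) * 2 ^ j0 := by
      rw [← hw]
      apply Nat.mul_le_mul_right
      calc 256 = 2 ^ 8 := by norm_num
        _ ≤ 2 ^ (q + 8) := Nat.pow_le_pow_right (by norm_num) (by omega)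
    omega
  -- the second grid
  obtain ⟨m, hm⟩ : ∃ m, m = (J + 1) / 2 := ⟨_, rfl⟩
  obtain ⟨Sh, hSh⟩ : ∃ Sh, Sh = S4 m := ⟨_, rfl⟩
  have hShJ : Sh ≤ 2 ^ J := by
    have h1 := S4_eq m
    have h2 : 4 ^ m ≤ 2 ^ (J + 1) := by
      have : (4 : ℕ) = 2 ^ 2 := by norm_num
      rw [this, ← pow_mul]
      exact Nat.pow_le_pow_right (by norm_num) (by omega)
    rw [pow_succ] at h2
    rw [hSh]; omega
  -- the number of top blocks
  obtain ⟨M, hM⟩ : ∃ M, M = X / 2 ^ J - 6 := ⟨_, rfl⟩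
  have hM1 : M * 2 ^ J ≤ X - 6 * 2 ^ J := by
    rw [hM, Nat.sub_mul]
    have := Nat.div_mul_le_self X (2 ^ J)
    omega
  have hM2 : X ≤ M * 2 ^ J + 7 * 2 ^ J := by
    have h1 : X < (X / 2 ^ J + 1) * 2 ^ J := by
      rw [mul_comm]; exact Nat.lt_mul_div_succ X (by positivity)
    have h2 : 6 ≤ X / 2 ^ J := by
      rw [Nat.le_div_iff_mul_le (by positivity)]; omega
    have h3 : (X / 2 ^ J + 1) * 2 ^ J = M * 2 ^ J + 7 * 2 ^ J := by
      have : X / 2 ^ J = M + 6 := by omega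
      rw [this]; ring
    omega
  have hNw : M * 2 ^ r * w = M * 2 ^ J := by rw [h2Jw]; ring
  -- choice of the base point
  obtain ⟨a, ha, hA0, hA1⟩ : ∃ a, a < T ∧
      ∑ i ∈ range (M * 2 ^ r), ((co P (X + a + i * w) (X + a + i * w + w) : ℝ)) ^ 2 ≤ 18 * C2 * X / T ∧
      ∑ i ∈ range (M * 2 ^ r), ((co P (X + Sh + a + i * w) (X + Sh + a + i * w + w) : ℝ)) ^ 2 ≤
        18 * C2 * X / T := by
    by_contra hcon
    push Not at hcon
    have k0 := energy (P := P) X T w (M * 2 ^ r) X hTw hw3 le_rfl (by rw [hNw]; omega)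
    have k1 := energy (P := P) X T w (M * 2 ^ r) (X + Sh) hTw hw3 (by omega) (by rw [hNw]; omega)
    have hmomP : ∑ n ∈ Ico X (2 * X + 1), ((co P n (n + T) : ℝ)) ^ 2 ≤ C2 * X := by
      refine le_trans (Finset.sum_le_sum fun n _ => ?_) hmom
      apply pow_le_pow_left₀ (Nat.cast_nonneg _)
      have : co P n (n + T) ≤ co P' n (n + T) := by
        unfold co
        apply Finset.card_le_card
        intro x hx
        rw [mem_filter] at hx ⊢
        exact ⟨hx.1, hPP x hx.2⟩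
      exact_mod_cast this
    have h3 : ∀ a ∈ range T, 18 * C2 * X / T <
        ∑ i ∈ range (M * 2 ^ r), ((co P (X + a + i * w) (X + a + i * w + w) : ℝ)) ^ 2 +
        ∑ i ∈ range (M * 2 ^ r), ((co P (X + Sh + a + i * w) (X + Sh + a + i * w + w) : ℝ)) ^ 2 := by
      intro a ha
      have n0 : 0 ≤ ∑ i ∈ range (M * 2 ^ r), ((co P (X + a + i * w) (X + a + i * w + w) : ℝ)) ^ 2 :=
        Finset.sum_nonneg fun _ _ => by positivity
      have n1 : 0 ≤ ∑ i ∈ range (M * 2 ^ r),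
          ((co P (X + Sh + a + i * w) (X + Sh + a + i * w + w) : ℝ)) ^ 2 :=
        Finset.sum_nonneg fun _ _ => by positivity
      rcases le_or_gt (∑ i ∈ range (M * 2 ^ r),
          ((co P (X + a + i * w) (X + a + i * w + w) : ℝ)) ^ 2) (18 * C2 * X / T) with h | h
      · have := hcon a (mem_range.1 ha) h
        linarith
      · linarith
    have h4 := Finset.sum_lt_sum_of_nonempty (s := range T) ⟨0, mem_range.2 (by omega)⟩ h3
    rw [Finset.sum_const, card_range, nsmul_eq_mul, Finset.sum_add_distrib] at h4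
    have hTpos : (0 : ℝ) < T := by linarith
    have h5 : (T : ℝ) * (18 * C2 * X / T) = 18 * C2 * X := by field_simp
    rw [h5] at h4
    linarith
  obtain ⟨A0, hA0def⟩ : ∃ A0, A0 = X + a := ⟨_, rfl⟩
  obtain ⟨A1, hA1def⟩ : ∃ A1, A1 = X + Sh + a := ⟨_, rfl⟩
  have hA1A0 : A1 = A0 + Sh := by omega
  rw [← hA0def] at hA0
  rw [← hA1def] at hA1
  -- bad counts
  have hgrid : ∀ A' : ℕ, ∑ i ∈ range (M * 2 ^ r), ((co P (A' + i * w) (A' + i * w + w) : ℝ)) ^ 2 ≤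
      18 * C2 * X / T → ∑ n ∈ Ioc A' (A' + M * 2 ^ J),
        (bc (fun i => (co P 0 (A' + i * w) : ℝ)) q τ (r - q + 1) A' w n : ℝ) ≤ C4 * X := by
    intro A' hA'
    have h1 := sum_bc (fun i => (co P 0 (A' + i * w) : ℝ)) M r q τ hτ0 hqr A' w hw1
    rw [hNw] at h1
    refine h1.trans ?_
    have h2 : ∑ i ∈ range (M * 2 ^ r), ((co P 0 (A' + (i + 1) * w) : ℝ) - co P 0 (A' + i * w)) ^ 2 ≤
        18 * C2 * X / T := by
      refine le_trans (le_of_eq ?_) hA'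
      apply Finset.sum_congr rfl
      intro i _
      rw [co_sub A' (i * w) ((i + 1) * w) (Nat.mul_le_mul_right w (Nat.le_succ i))]
      have : A' + (i + 1) * w = A' + i * w + w := by ring
      rw [this]
    have hTpos : (0 : ℝ) < T := by linarith
    have h3 : (w : ℝ) ≤ 4 * T := by
      have : w ≤ 4 * T := by omega
      exact_mod_cast this
    calc (w : ℝ) * (q * 2 ^ q / τ ^ 2 *
          ∑ i ∈ range (M * 2 ^ r), ((co P 0 (A' + (i + 1) * w) : ℝ) - co P 0 (A' + i * w)) ^ 2) ≤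
        (4 * T) * (q * 2 ^ q / τ ^ 2 * (18 * C2 * X / T)) := by gcongr
      _ = C4 * X := by rw [hC4]; field_simp; ring
  have hb0 := hgrid A0 hA0
  have hb1 := hgrid A1 hA1
  set b0 : ℕ → ℕ := fun n => bc (fun i => (co P 0 (A0 + i * w) : ℝ)) q τ (r - q + 1) A0 w n with hb0def
  set b1 : ℕ → ℕ := fun n => bc (fun i => (co P 0 (A1 + i * w) : ℝ)) q τ (r - q + 1) A1 w n with hb1def
  -- the core region
  set Core : Finset ℕ := Ioc (A0 + 2 * 2 ^ J) (A0 + M * 2 ^ J - 2 ^ J) with hCore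
  have hcore0 : Core ⊆ Ioc A0 (A0 + M * 2 ^ J) := by
    intro n hn
    rw [hCore, mem_Ioc] at hn
    rw [mem_Ioc]; omega
  have hcore1 : Core ⊆ Ioc A1 (A1 + M * 2 ^ J) := by
    intro n hn
    rw [hCore, mem_Ioc] at hn
    rw [mem_Ioc]; omega
  have hsum : ∑ n ∈ Core, ((b0 n + b1 n : ℕ) : ℝ) ≤ 2 * C4 * X := by
    have h1 : ∑ n ∈ Core, (b0 n : ℝ) ≤ C4 * X :=
      (Finset.sum_le_sum_of_subset_of_nonneg hcore0 fun _ _ _ => Nat.cast_nonneg _).trans hb0
    have h2 : ∑ n ∈ Core, (b1 n : ℝ) ≤ C4 * X :=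
      (Finset.sum_le_sum_of_subset_of_nonneg hcore1 fun _ _ _ => Nat.cast_nonneg _).trans hb1
    push_cast
    rw [Finset.sum_add_distrib]
    linarith
  set BadSet : Finset ℕ := Core.filter (fun n => K1 + K1 < b0 n + b1 n) with hBS
  have hBadcard : (BadSet.card : ℝ) ≤ η * X / 4 := by
    have h1 : (BadSet.card : ℝ) * (2 * K1 + 1) ≤ 2 * C4 * X := by
      refine le_trans ?_ hsum
      have h2 : ∑ n ∈ BadSet, ((b0 n + b1 n : ℕ) : ℝ) ≤ ∑ n ∈ Core, ((b0 n + b1 n : ℕ) : ℝ) :=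
        Finset.sum_le_sum_of_subset_of_nonneg (Finset.filter_subset _ _) fun _ _ _ => Nat.cast_nonneg _
      refine le_trans ?_ h2
      have h3 : ∀ n ∈ BadSet, ((2 * K1 + 1 : ℝ)) ≤ ((b0 n + b1 n : ℕ) : ℝ) := by
        intro n hn
        rw [hBS, mem_filter] at hn
        have h4 : 2 * K1 + 1 ≤ b0 n + b1 n := by omega
        exact_mod_cast h4
      have h4 := Finset.card_nsmul_le_sum BadSet _ _ h3
      rw [nsmul_eq_mul] at h4
      exact h4
    have h2 : 4 * C4 ≤ η * K1 := by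
      rw [div_le_iff₀ hη] at hK1; linarith
    have h3 : (0 : ℝ) ≤ BadSet.card := Nat.cast_nonneg _
    have h4 : 2 * C4 * X ≤ η * X / 4 * (2 * K1 + 1) := by
      have h5 : 2 * C4 * X ≤ η * K1 * X / 2 := by nlinarith
      have h6 : 0 ≤ η * X := by positivity
      nlinarith
    have h5 : (0 : ℝ) < 2 * K1 + 1 := by positivity
    exact le_of_mul_le_mul_right (h1.trans h4) h5
  have hout : (((Ioc X (2 * X)) \ Core).card : ℝ) ≤ η * X / 4 := by
    have h1 : (Ioc X (2 * X)) \ Core ⊆ Ioc X (A0 + 2 * 2 ^ J) ∪ Ioc (A0 + M * 2 ^ J - 2 ^ J) (2 * X) := by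
      intro n hn
      rw [mem_sdiff, hCore, mem_Ioc, mem_Ioc] at hn
      rw [mem_union, mem_Ioc, mem_Ioc]
      omega
    have h2 := (Finset.card_le_card h1).trans (Finset.card_union_le _ _)
    rw [Nat.card_Ioc, Nat.card_Ioc] at h2
    have h3 : ((Ioc X (2 * X)) \ Core).card ≤ 11 * 2 ^ J := by omega
    have h4 : (((Ioc X (2 * X)) \ Core).card : ℝ) ≤ 11 * 2 ^ J := by exact_mod_cast h3
    linarith
  -- the main inclusion
  have hincl : (Finset.Ioc X (2 * X)).filter (fun n => (∀ a b : ℕ, a ≤ n → n ≤ b →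
        K * L ≤ (b : ℝ) - a → (b : ℝ) - a ≤ n →
          c₁ * ((b : ℝ) - a) / L ≤ co P a b ∧ (co P' a b : ℝ) ≤ c₂ * ((b : ℝ) - a) / L) ∧
        (e1 + q) + (e2 + 2) + (K1 + K1) < ((range (Nat.log 2 X + 1)).filter (fun j => L ≤ (2 : ℝ) ^ j ∧
          ¬ Good P c₁ c₂ δ L n j)).card) ⊆ BadSet ∪ ((Ioc X (2 * X)) \ Core) := by
    intro n hn
    rw [mem_filter] at hn
    obtain ⟨hnX, hnreg, hncard⟩ := hn
    by_cases hnc : n ∈ Core
    swap
    · exact mem_union_right _ (mem_sdiff.2 ⟨hnX, hnc⟩)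
    by_cases hnb : n ∈ BadSet
    · exact mem_union_left _ hnb
    exfalso
    revert hncard
    rw [imp_false, not_lt]
    have hb : b0 n + b1 n ≤ K1 + K1 := by
      by_contra hcon
      push Not at hcon
      exact hnb (mem_filter.2 ⟨hnc, hcon⟩)
    obtain ⟨Ex, hEx⟩ : ∃ Ex : Finset ℕ, Ex = (range (Nat.log 2 X + 1)).filter
      (fun j => L ≤ (2 : ℝ) ^ j ∧ ¬ Good P c₁ c₂ δ L n j) := ⟨_, rfl⟩
    rw [← hEx]
    obtain ⟨F0, hF0⟩ : ∃ F0 : Finset ℕ, F0 = (range (r - q + 1)).filter (fun l =>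
      Bad (fun i => (co P 0 (A0 + i * w) : ℝ)) q τ l ((n - A0 - 1) / (2 ^ (l + q) * w))) := ⟨_, rfl⟩
    obtain ⟨F1, hF1⟩ : ∃ F1 : Finset ℕ, F1 = (range (r - q + 1)).filter (fun l =>
      Bad (fun i => (co P 0 (A1 + i * w) : ℝ)) q τ l ((n - A1 - 1) / (2 ^ (l + q) * w))) := ⟨_, rfl⟩
    have hF0c : F0.card = b0 n := by rw [hF0, hb0def]; simp only [bc]
    have hF1c : F1.card = b1 n := by rw [hF1, hb1def]; simp only [bc]
    have hXn : X < n ∧ n ≤ 2 * X := by rwa [mem_Ioc] at hnX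
    rw [hCore, mem_Ioc] at hnc
    have hsub : Ex ⊆ Ico j0 (j0 + (e1 + q)) ∪ (Ico (J - 2) (J - 2 + (e2 + 2)) ∪
        ((F0 ∪ F1).image (fun l => l + q + j0 - 3))) := by
      intro j hj
      rw [hEx, mem_filter, mem_range] at hj
      obtain ⟨hj1, hj2, hj3⟩ := hj
      have hjj0 : j0 ≤ j := by
        have h1 : (2 : ℝ) ^ j0 < 2 ^ (j + 1) := by rw [pow_succ]; linarith
        have := (pow_lt_pow_iff_right₀ (one_lt_two : (1 : ℝ) < 2)).1 h1
        omega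
      by_cases c1 : j < j0 + (e1 + q)
      · exact mem_union_left _ (mem_Ico.2 ⟨hjj0, c1⟩)
      apply mem_union_right
      by_cases c2 : J - 2 ≤ j
      · apply mem_union_left
        rw [mem_Ico]
        refine ⟨c2, ?_⟩
        have h1 : 2 ^ j ≤ X := by
          have h2 : 2 ^ j ≤ 2 ^ (Nat.log 2 X) := Nat.pow_le_pow_right (by norm_num) (by omega)
          exact h2.trans (Nat.pow_log_le_self 2 (by omega))
        have h1r : (2 : ℝ) ^ j ≤ X := by exact_mod_cast h1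
        have h2 : (X : ℝ) < 2 ^ (J + e2) := by
          have h3 : (X : ℝ) = (64 / η) * (η * X / 64) := by field_simp
          have h4 : 64 / η ≤ 2 ^ e2 / 2 := by
            have : 128 / η = 2 * (64 / η) := by ring
            linarith
          rw [h3]
          calc (64 / η) * (η * X / 64) < (64 / η) * 2 ^ (J + 1) := by
                apply mul_lt_mul_of_pos_left hJb (by positivity)
            _ ≤ (2 ^ e2 / 2) * 2 ^ (J + 1) := by gcongr
            _ = 2 ^ (J + e2) := by rw [pow_add, pow_succ]; ring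
        have h5 := (pow_lt_pow_iff_right₀ (one_lt_two : (1 : ℝ) < 2)).1 (h1r.trans_lt h2)
        omega
      apply mem_union_right
      rw [mem_image]
      obtain ⟨l, hl⟩ : ∃ l, l + q + j0 = j + 3 := ⟨j + 3 - q - j0, by omega⟩
      refine ⟨l, ?_, by omega⟩
      have hlr : l < r - q + 1 := by omega
      obtain ⟨D, hD⟩ : ∃ D, D = 2 ^ j := ⟨_, rfl⟩
      have hD1 : 1 ≤ D := by rw [hD]; exact Nat.one_le_two_pow
      have hDw : 2 ^ (l + q) * w = 8 * D := by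
        rw [hw, hD, ← pow_add, hl, pow_add]; ring
      have hDJ : 8 * D ≤ 2 ^ J := by
        have : 8 * D = 2 ^ (j + 3) := by rw [hD, pow_add]; ring
        rw [this]
        exact Nat.pow_le_pow_right (by norm_num) (by omega)
      have hLw : L ≤ w := by rw [hwr]; exact hj0a
      have hDr : (D : ℝ) = 2 ^ j := by rw [hD]; push_cast; rfl
      have hKL : K * L ≤ 8 * D := by
        calc K * L ≤ 2 ^ e1 * 2 ^ j0 := by gcongr
          _ = 2 ^ (e1 + j0) := by rw [pow_add]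
          _ ≤ 2 ^ j := pow_le_pow_right₀ (by norm_num) (by omega)
          _ = D := hDr.symm
          _ ≤ 8 * D := by
            have : (0 : ℝ) ≤ D := Nat.cast_nonneg _
            linarith
      have hDn : ((8 * D : ℕ) : ℝ) ≤ n := by
        have : 8 * D ≤ n := by omega
        exact_mod_cast this
      have hreg2 : ∀ a b : ℕ, a ≤ n → n ≤ b → (b : ℝ) - a = 8 * D →
          c₁ * ((b : ℝ) - a) / L ≤ co P a b ∧ (co P' a b : ℝ) ≤ c₂ * ((b : ℝ) - a) / L := by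
        intro a b ha hb hab
        apply hnreg a b ha hb
        · rw [hab]; exact hKL
        · rw [hab]; push_cast at hDn; exact hDn
      obtain ⟨s0, k, hS1, hS2⟩ := S4_mod m (j + 3) (by omega)
      have hp3 : 2 ^ (j + 3) = 8 * D := by rw [hD, pow_add]; ring
      have hp4 : 2 ^ (j + 3 + 1) = 16 * D := by rw [hD, pow_add, pow_add]; ring
      rw [hp3] at hS1 hS2
      rw [hp4] at hS2
      rw [← hSh] at hS1
      have hcont := contain A0 Sh n D hD1 s0 k hS1 hS2 (by omega)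
      by_contra hcon
      rw [mem_union, not_or, hF0, hF1, mem_filter, mem_filter, mem_range] at hcon
      have hnb0 : ¬ Bad (fun i => (co P 0 (A0 + i * w) : ℝ)) q τ l
          ((n - A0 - 1) / (2 ^ (l + q) * w)) := fun h => hcon.1 ⟨hlr, h⟩
      have hnb1 : ¬ Bad (fun i => (co P 0 (A1 + i * w) : ℝ)) q τ l
          ((n - A1 - 1) / (2 ^ (l + q) * w)) := fun h => hcon.2 ⟨hlr, h⟩
      rcases hcont with h | h
      · exact hj3 (good_of_level P P' hPP c₁ c₂ δ L hc₂ hL0 q hq' A0 w l n D hw1 hLw hD1 hDw j hD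
          hreg2 hδ hnb0 h (by omega))
      · rw [← hA1A0] at h
        exact hj3 (good_of_level P P' hPP c₁ c₂ δ L hc₂ hL0 q hq' A1 w l n D hw1 hLw hD1 hDw j hD
          hreg2 hδ hnb1 h (by omega))
    have h1 := Finset.card_le_card hsub
    have h2 := Finset.card_union_le (Ico j0 (j0 + (e1 + q))) (Ico (J - 2) (J - 2 + (e2 + 2)) ∪
        ((F0 ∪ F1).image (fun l => l + q + j0 - 3)))
    have h3 := Finset.card_union_le (Ico (J - 2) (J - 2 + (e2 + 2)))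
        ((F0 ∪ F1).image (fun l => l + q + j0 - 3))
    have h4 := Finset.card_image_le (s := F0 ∪ F1) (f := fun l => l + q + j0 - 3)
    have h5 := Finset.card_union_le F0 F1
    rw [Nat.card_Ico] at h2 h3
    omega
  have h1 := (Finset.card_le_card hincl).trans (Finset.card_union_le _ _)
  have h4 : ((BadSet.card + ((Ioc X (2 * X)) \ Core).card : ℕ) : ℝ) ≤ η * X := by
    push_cast
    have : 0 ≤ η * X := by positivity
    linarith
  refine le_trans ?_ h4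
  exact_mod_cast h1

lemma good_mono (P : ℕ → Prop) [DecidablePred P] {c₁ c₂ c₁' c₂' δ L : ℝ} {n j : ℕ} (h1 : c₁' ≤ c₁)
    (h2 : c₂ ≤ c₂') (h : Good P c₁ c₂ δ L n j) : Good P c₁' c₂' δ L n j := by
  obtain ⟨θ, a, b, hc⟩ := h
  exact ⟨θ, h1.trans a, b.trans h2, hc⟩

open Classical in
/-- **The abstract theorem.** -/
theorem scales_abs (cS C1 C2 : ℝ) (hcS : 0 < cS) (hC1 : 0 < C1) (hC2 : 0 < C2) :
    ∃ c₁ c₂ κ : ℝ, 0 < c₁ ∧ 0 < c₂ ∧ 0 < κ ∧ ∀ δ η : ℝ, 0 < δ → 0 < η → ∃ (K' : ℕ) (lam B0 : ℝ),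
      0 < lam ∧ 0 < B0 ∧ ∀ (P P' : ℕ → Prop) (X : ℕ) (L : ℝ),
      2 ≤ L → B0 * L ^ 2 ≤ X → (∀ n, P n → P' n) →
      (co P' 0 (4 * X) : ℝ) ≤ C1 * X / L → cS * X / L ≤ (co P X (2 * X) : ℝ) →
      ∑ n ∈ Finset.Ico X (2 * X + 1), ((co P' n (n + ⌊L⌋₊) : ℝ)) ^ 2 ≤ C2 * X →
      κ * X ≤ (((Finset.Ioc X (2 * X)).filter (fun n =>
        ((range (Nat.log 2 X + 1)).filter (fun j => L ≤ (2 : ℝ) ^ j ∧
          ¬ Good P c₁ c₂ δ L n j)).card ≤ K')).card : ℝ) ∧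
      (((Finset.Ioc X (2 * X)).filter (fun n =>
        K' < ((range (Nat.log 2 X + 1)).filter (fun j => L ≤ (2 : ℝ) ^ j ∧
          ¬ Good P 0 lam δ L n j)).card)).card : ℝ) ≤ η * X := by
  obtain ⟨c₁, c₂, K, κ, hc₁, hc₂, hK, hκ, habs⟩ := regular_abs cS C1 C2 hcS hC1 hC2
  refine ⟨c₁, c₂, κ / 2, hc₁, hc₂, by positivity, ?_⟩
  intro δ η hδ hη
  obtain ⟨Ka, Ba, hBa, hA⟩ := scales_core c₁ c₂ K C2 (min (κ / 2) 1) δ hc₂ hK hC2 (by positivity)
    (min_le_right _ _) hδ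
  obtain ⟨Kb, Bb, hBb, hB⟩ := scales_core 0 (4 * C1 / η) 1 C2 (min (η / 2) 1) δ (by positivity) le_rfl hC2
    (by positivity) (min_le_right _ _) hδ
  refine ⟨max Ka Kb, 4 * C1 / η, K / cS + Ba + Bb + 1, by positivity, by positivity, ?_⟩
  intro P P' X L hL2 hX hPP hup hlow hmom
  have hL0 : 0 < L := by linarith
  have hL4 : 4 ≤ L ^ 2 := by nlinarith
  have hXs : K / cS * L ^ 2 + Ba * L ^ 2 + Bb * L ^ 2 + L ^ 2 ≤ X := by linarith
  have t1 : 0 ≤ K / cS * L ^ 2 := by positivity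
  have t2 : 0 ≤ Ba * L ^ 2 := by positivity
  have t3 : 0 ≤ Bb * L ^ 2 := by positivity
  have hXpos : (0 : ℝ) < X := by linarith
  have hKX : K * L ^ 2 ≤ cS * X := by
    have h1 : K / cS * L ^ 2 ≤ X := by linarith
    rw [div_mul_eq_mul_div, div_le_iff₀ hcS] at h1
    linarith
  constructor
  · have hreg := habs P P' X L hL2 hKX hPP hup hlow hmom
    have hA' := hA P P' X L hL2 (by linarith) hPP hmom
    have hmin : min (κ / 2) 1 * (X : ℝ) ≤ κ / 2 * X :=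
      mul_le_mul_of_nonneg_right (min_le_left _ _) hXpos.le
    have hsub : (Finset.Ioc X (2 * X)).filter (fun n => ∀ a b : ℕ, a ≤ n → n ≤ b →
        K * L ≤ (b : ℝ) - a → (b : ℝ) - a ≤ n →
          c₁ * ((b : ℝ) - a) / L ≤ co P a b ∧ (co P' a b : ℝ) ≤ c₂ * ((b : ℝ) - a) / L) ⊆
        ((Finset.Ioc X (2 * X)).filter (fun n =>
        ((range (Nat.log 2 X + 1)).filter (fun j => L ≤ (2 : ℝ) ^ j ∧
          ¬ Good P c₁ c₂ δ L n j)).card ≤ max Ka Kb)) ∪
        ((Finset.Ioc X (2 * X)).filter (fun n => (∀ a b : ℕ, a ≤ n → n ≤ b →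
        K * L ≤ (b : ℝ) - a → (b : ℝ) - a ≤ n →
          c₁ * ((b : ℝ) - a) / L ≤ co P a b ∧ (co P' a b : ℝ) ≤ c₂ * ((b : ℝ) - a) / L) ∧
        Ka < ((range (Nat.log 2 X + 1)).filter (fun j => L ≤ (2 : ℝ) ^ j ∧
          ¬ Good P c₁ c₂ δ L n j)).card)) := by
      intro n hn
      rw [mem_filter] at hn
      rw [mem_union, mem_filter, mem_filter]
      by_cases h : Ka < ((range (Nat.log 2 X + 1)).filter (fun j => L ≤ (2 : ℝ) ^ j ∧
          ¬ Good P c₁ c₂ δ L n j)).card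
      · exact Or.inr ⟨hn.1, hn.2, h⟩
      · exact Or.inl ⟨hn.1, (not_lt.1 h).trans (le_max_left _ _)⟩
    have h1 := (Finset.card_le_card hsub).trans (Finset.card_union_le _ _)
    have h2 : (((Finset.Ioc X (2 * X)).filter (fun n => ∀ a b : ℕ, a ≤ n → n ≤ b →
        K * L ≤ (b : ℝ) - a → (b : ℝ) - a ≤ n →
          c₁ * ((b : ℝ) - a) / L ≤ co P a b ∧ (co P' a b : ℝ) ≤ c₂ * ((b : ℝ) - a) / L)).card : ℝ) ≤
        (((Finset.Ioc X (2 * X)).filter (fun n =>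
        ((range (Nat.log 2 X + 1)).filter (fun j => L ≤ (2 : ℝ) ^ j ∧
          ¬ Good P c₁ c₂ δ L n j)).card ≤ max Ka Kb)).card : ℝ) +
        (((Finset.Ioc X (2 * X)).filter (fun n => (∀ a b : ℕ, a ≤ n → n ≤ b →
        K * L ≤ (b : ℝ) - a → (b : ℝ) - a ≤ n →
          c₁ * ((b : ℝ) - a) / L ≤ co P a b ∧ (co P' a b : ℝ) ≤ c₂ * ((b : ℝ) - a) / L) ∧
        Ka < ((range (Nat.log 2 X + 1)).filter (fun j => L ≤ (2 : ℝ) ^ j ∧
          ¬ Good P c₁ c₂ δ L n j)).card)).card : ℝ) := by exact_mod_cast h1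
    linarith
  · have hB' := hB P P' X L hL2 (by linarith) hPP hmom
    obtain ⟨τ, hτ⟩ : ∃ τ : ℝ, τ = 4 * C1 / η / L := ⟨_, rfl⟩
    have hτ0 : 0 < τ := by rw [hτ]; positivity
    have hr := max_right (P := P') τ hτ0 (4 * X) (4 * X - X) X rfl (by omega)
    have hl := max_left (P := P') τ hτ0 0 (2 * X - 0) (2 * X) rfl (by omega)
    obtain ⟨R, hR⟩ : ∃ R, R = ((Finset.Ico X (4 * X)).filter (fun n => ∃ H : ℕ, 1 ≤ H ∧ n + H ≤ 4 * X ∧
      τ * H < (co P' n (n + H) : ℝ))) := ⟨_, rfl⟩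
    obtain ⟨S, hS⟩ : ∃ S, S = ((Finset.Ioc 0 (2 * X)).filter (fun n => ∃ H : ℕ, 1 ≤ H ∧ 0 + H ≤ n ∧
      τ * H < (co P' (n - H) n : ℝ))) := ⟨_, rfl⟩
    rw [← hR] at hr
    rw [← hS] at hl
    have hup2 : τ * (η / 4 * X) = C1 * X / L := by rw [hτ]; field_simp
    have hRc : (R.card : ℝ) ≤ η / 4 * X := by
      refine le_of_mul_le_mul_left (hr.trans ?_) hτ0
      rw [hup2]
      refine le_trans ?_ hup
      have := co_anti (P := P') (a := 0) (a' := X) (b := 4 * X) (Nat.zero_le _)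
      exact_mod_cast this
    have hSc : (S.card : ℝ) ≤ η / 4 * X := by
      refine le_of_mul_le_mul_left (hl.trans ?_) hτ0
      rw [hup2]
      refine le_trans ?_ hup
      have := co_mono (P := P') (a := 0) (b := 2 * X) (b' := 4 * X) (by omega)
      exact_mod_cast this
    have hsub : (Finset.Ioc X (2 * X)).filter (fun n =>
        max Ka Kb < ((range (Nat.log 2 X + 1)).filter (fun j => L ≤ (2 : ℝ) ^ j ∧
          ¬ Good P 0 (4 * C1 / η) δ L n j)).card) ⊆ (R ∪ S) ∪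
        ((Finset.Ioc X (2 * X)).filter (fun n => (∀ a b : ℕ, a ≤ n → n ≤ b →
        1 * L ≤ (b : ℝ) - a → (b : ℝ) - a ≤ n →
          0 * ((b : ℝ) - a) / L ≤ co P a b ∧ (co P' a b : ℝ) ≤ (4 * C1 / η) * ((b : ℝ) - a) / L) ∧
        Kb < ((range (Nat.log 2 X + 1)).filter (fun j => L ≤ (2 : ℝ) ^ j ∧
          ¬ Good P 0 (4 * C1 / η) δ L n j)).card)) := by
      intro n hn
      rw [mem_filter] at hn
      have hnX := mem_Ioc.1 hn.1
      by_cases hnR : n ∈ R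
      · exact mem_union_left _ (mem_union_left _ hnR)
      by_cases hnS : n ∈ S
      · exact mem_union_left _ (mem_union_right _ hnS)
      apply mem_union_right
      rw [mem_filter]
      refine ⟨hn.1, ?_, (le_max_right _ _).trans_lt hn.2⟩
      intro a b ha hb _ hab
      refine ⟨by simp, ?_⟩
      rw [hR, mem_filter, not_and, mem_Ico] at hnR
      rw [hS, mem_filter, not_and, mem_Ioc] at hnS
      have hnR' := hnR (by omega)
      have hnS' := hnS (by omega)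
      push Not at hnR' hnS'
      have hab' : b ≤ a + n := by
        have : (b : ℝ) ≤ a + n := by linarith
        exact_mod_cast this
      have k1 : (co P' n b : ℝ) ≤ τ * ((b : ℝ) - n) := by
        rcases Nat.eq_or_lt_of_le hb with h | h
        · rw [← h, co_self]; simp
        · have h3 := hnR' (b - n) (by omega) (by omega)
          have h4 : n + (b - n) = b := by omega
          rw [h4, Nat.cast_sub hb] at h3
          exact h3
      have k2 : (co P' a n : ℝ) ≤ τ * ((n : ℝ) - a) := by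
        rcases Nat.eq_or_lt_of_le ha with h | h
        · rw [h, co_self]; simp
        · have h3 := hnS' (n - a) (by omega) (by omega)
          have h4 : n - (n - a) = a := by omega
          rw [h4, Nat.cast_sub ha] at h3
          exact h3
      have k3 : (co P' a b : ℝ) = co P' a n + co P' n b := by
        have := co_add (P := P') ha hb
        exact_mod_cast this.symm
      rw [k3]
      have k4 : (4 * C1 / η) * ((b : ℝ) - a) / L = τ * ((n : ℝ) - a) + τ * ((b : ℝ) - n) := by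
        rw [hτ]; ring
      rw [k4]
      linarith
    have h1 := (Finset.card_le_card hsub).trans (Finset.card_union_le _ _)
    have h2 := Finset.card_union_le R S
    have hmin : min (η / 2) 1 * (X : ℝ) ≤ η / 2 * X :=
      mul_le_mul_of_nonneg_right (min_le_left _ _) hXpos.le
    have h3 : (((Finset.Ioc X (2 * X)).filter (fun n =>
        max Ka Kb < ((range (Nat.log 2 X + 1)).filter (fun j => L ≤ (2 : ℝ) ^ j ∧
          ¬ Good P 0 (4 * C1 / η) δ L n j)).card)).card : ℝ) ≤ (R.card + S.card : ℝ) +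
        (((Finset.Ioc X (2 * X)).filter (fun n => (∀ a b : ℕ, a ≤ n → n ≤ b →
        1 * L ≤ (b : ℝ) - a → (b : ℝ) - a ≤ n →
          0 * ((b : ℝ) - a) / L ≤ co P a b ∧ (co P' a b : ℝ) ≤ (4 * C1 / η) * ((b : ℝ) - a) / L) ∧
        Kb < ((range (Nat.log 2 X + 1)).filter (fun j => L ≤ (2 : ℝ) ^ j ∧
          ¬ Good P 0 (4 * C1 / η) δ L n j)).card)).card : ℝ) := by
      exact_mod_cast h1.trans (Nat.add_le_add_right h2 _)
    linarith

end Pool.Agent.W123.GS
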