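import Mathlib

set_option autoImplicit false

/-!
# Energy of the averages over dyadic blocks
-/

namespace Pool.Agent.W123.GS

open Finset

variable (g : ℕ → ℝ)

/-- increment over the block `c` of level `l` -/
def S (l c : ℕ) : ℝ := g ((c + 1) * 2 ^ l) - g (c * 2 ^ l)

lemma S_add (l q c : ℕ) : S g (l + q) c = ∑ c' ∈ Ico (c * 2 ^ q) ((c + 1) * 2 ^ q), S g l c' := by
  unfold S
  have h : ∀ a b : ℕ, a ≤ b → ∑ i ∈ Ico a b, (g ((i + 1) * 2 ^ l) - g (i * 2 ^ l)) =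
      g (b * 2 ^ l) - g (a * 2 ^ l) := by
    intro a b hab
    induction b, hab using Nat.le_induction with
    | base => simp
    | succ b hab ih =>
      rw [Finset.sum_Ico_succ_top hab, ih]
      ring
  rw [h _ _ (Nat.mul_le_mul_right _ (Nat.le_succ c))]
  have e1 : (c + 1) * 2 ^ q * 2 ^ l = (c + 1) * 2 ^ (l + q) := by rw [pow_add]; ring
  have e2 : c * 2 ^ q * 2 ^ l = c * 2 ^ (l + q) := by rw [pow_add]; ring
  rw [e1, e2]

/-- energy at the level `l` of `n` blocks -/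
noncomputable def E (l n : ℕ) : ℝ := ∑ c ∈ range n, (S g l c) ^ 2 / 2 ^ l

lemma E_nonneg (l n : ℕ) : 0 ≤ E g l n := Finset.sum_nonneg fun _ _ => by positivity

/-- variance in a block -/
noncomputable def Vr (l q c : ℕ) : ℝ :=
  ∑ c' ∈ Ico (c * 2 ^ q) ((c + 1) * 2 ^ q), (S g l c' - S g (l + q) c / 2 ^ q) ^ 2 / 2 ^ l

lemma Vr_eq (l q c : ℕ) : Vr g l q c =
    ∑ c' ∈ Ico (c * 2 ^ q) ((c + 1) * 2 ^ q), (S g l c') ^ 2 / 2 ^ l - (S g (l + q) c) ^ 2 / 2 ^ (l + q) := by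
  unfold Vr
  set s : ℝ := S g (l + q) c with hs
  have hsum : ∑ c' ∈ Ico (c * 2 ^ q) ((c + 1) * 2 ^ q), S g l c' = s := (S_add g l q c).symm
  have hcard : ((Ico (c * 2 ^ q) ((c + 1) * 2 ^ q)).card : ℝ) = 2 ^ q := by
    rw [Nat.card_Ico]
    have h1 : (c + 1) * 2 ^ q = c * 2 ^ q + 2 ^ q := by ring
    rw [h1, Nat.add_sub_cancel_left]
    push_cast; rfl
  have e : ∀ c' : ℕ, (S g l c' - s / 2 ^ q) ^ 2 / 2 ^ l =
      (S g l c') ^ 2 / 2 ^ l - 2 * (s / 2 ^ q) / 2 ^ l * S g l c' + (s / 2 ^ q) ^ 2 / 2 ^ l := by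
    intro c'; ring
  rw [Finset.sum_congr rfl (fun c' _ => e c'), Finset.sum_add_distrib, Finset.sum_sub_distrib,
    ← Finset.mul_sum, hsum, Finset.sum_const, nsmul_eq_mul, hcard, pow_add]
  field_simp
  ring

lemma sum_blocks (f : ℕ → ℝ) (k n : ℕ) :
    ∑ c ∈ range n, ∑ c' ∈ Ico (c * k) ((c + 1) * k), f c' = ∑ c' ∈ range (n * k), f c' := by
  induction n with
  | zero => simp
  | succ n ih =>
    rw [Finset.sum_range_succ, ih, Finset.range_eq_Ico, Finset.range_eq_Ico]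
    exact Finset.sum_Ico_consecutive f (Nat.zero_le _) (Nat.mul_le_mul_right _ (Nat.le_succ n))

lemma sum_Vr (l q n : ℕ) : ∑ c ∈ range n, Vr g l q c = E g l (n * 2 ^ q) - E g (l + q) n := by
  rw [Finset.sum_congr rfl (fun c _ => Vr_eq g l q c), Finset.sum_sub_distrib]
  unfold E
  rw [sum_blocks (fun c' => (S g l c') ^ 2 / 2 ^ l)]

lemma Vr_nonneg (l q c : ℕ) : 0 ≤ Vr g l q c := Finset.sum_nonneg fun _ _ => by positivity

/-- energies with the full number of blocks -/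
noncomputable def En (M r l : ℕ) : ℝ := E g l (M * 2 ^ (r - l))

lemma En_sub (M r l q : ℕ) (h : l + q ≤ r) :
    ∑ c ∈ range (M * 2 ^ (r - (l + q))), Vr g l q c = En g M r l - En g M r (l + q) := by
  rw [sum_Vr]
  unfold En
  congr 2
  rw [mul_assoc, ← pow_add]
  congr 2
  omega

lemma En_anti (M r l : ℕ) (h : l + 1 ≤ r) : En g M r (l + 1) ≤ En g M r l := by
  have h1 := En_sub g M r l 1 h
  have h2 : 0 ≤ ∑ c ∈ range (M * 2 ^ (r - (l + 1))), Vr g l 1 c :=
    Finset.sum_nonneg fun _ _ => Vr_nonneg g _ _ _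
  linarith

lemma sum_range_le (D : ℕ → ℝ) (r s m : ℕ) (hD : ∀ i, i < r → 0 ≤ D i) (h : m + s ≤ r) :
    ∑ l ∈ range m, D (l + s) ≤ ∑ i ∈ range r, D i := by
  have h1 : ∑ l ∈ range m, D (l + s) = ∑ i ∈ Ico s (s + m), D i := by
    rw [Finset.sum_Ico_eq_sum_range]
    have : s + m - s = m := by omega
    rw [this]
    exact Finset.sum_congr rfl fun i _ => by rw [add_comm]
  rw [h1]
  apply Finset.sum_le_sum_of_subset_of_nonneg
  · intro i hi
    rw [mem_Ico] at hi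
    rw [mem_range]; omega
  · intro i hi _
    exact hD i (mem_range.1 hi)

/-- the total energy drop -/
theorem sum_drop (M r q : ℕ) (hq : q ≤ r) :
    ∑ l ∈ range (r - q + 1), (En g M r l - En g M r (l + q)) ≤ q * En g M r 0 := by
  set D : ℕ → ℝ := fun m => En g M r m - En g M r (m + 1) with hD
  have hD0 : ∀ i, i < r → 0 ≤ D i := fun i hi => by
    have := En_anti g M r i hi
    simp only [hD]; linarith
  have htel : ∀ l k : ℕ, ∑ s ∈ range k, D (l + s) = En g M r l - En g M r (l + k) := by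
    intro l k
    induction k with
    | zero => simp
    | succ k ih =>
      rw [Finset.sum_range_succ, ih]
      simp only [hD]
      rw [← add_assoc]
      ring
  rw [Finset.sum_congr rfl (fun l _ => (htel l q).symm), Finset.sum_comm]
  have h1 : ∀ s ∈ range q, ∑ l ∈ range (r - q + 1), D (l + s) ≤ En g M r 0 := by
    intro s hs
    rw [mem_range] at hs
    refine (sum_range_le D r s (r - q + 1) hD0 (by omega)).trans ?_
    have h2 := htel 0 r
    simp only [zero_add] at h2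
    rw [h2]
    have : 0 ≤ En g M r r := E_nonneg g _ _
    linarith
  refine (Finset.sum_le_card_nsmul _ _ _ h1).trans ?_
  rw [card_range, nsmul_eq_mul]

/-- a block of level `l + q` with a deviating sub-block of level `l` -/
def Bad (q : ℕ) (τ : ℝ) (l c : ℕ) : Prop :=
  ∃ c' ∈ Ico (c * 2 ^ q) ((c + 1) * 2 ^ q), τ * 2 ^ l < |S g l c' - S g (l + q) c / 2 ^ q|

/-- the increments over several sub-blocks of a good block -/
lemma dev (q : ℕ) (τ : ℝ) (l c : ℕ) (h : ¬ Bad g q τ l c) (i i' : ℕ) (h1 : c * 2 ^ q ≤ i) (h2 : i ≤ i')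
    (h3 : i' ≤ (c + 1) * 2 ^ q) :
    |g (i' * 2 ^ l) - g (i * 2 ^ l) - ((i' : ℝ) - i) * (S g (l + q) c / 2 ^ q)| ≤
      ((i' : ℝ) - i) * (τ * 2 ^ l) := by
  induction i', h2 using Nat.le_induction with
  | base => simp
  | succ m hm ih =>
    have ih' := ih (by omega)
    have h4 : |S g l m - S g (l + q) c / 2 ^ q| ≤ τ * 2 ^ l := by
      by_contra hcon
      apply h
      exact ⟨m, mem_Ico.2 ⟨by omega, by omega⟩, not_le.1 hcon⟩
    unfold S at h4
    have e : g ((m + 1) * 2 ^ l) - g (i * 2 ^ l) - (((m + 1 : ℕ) : ℝ) - i) * (S g (l + q) c / 2 ^ q) =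
        (g (m * 2 ^ l) - g (i * 2 ^ l) - ((m : ℝ) - i) * (S g (l + q) c / 2 ^ q)) +
        (g ((m + 1) * 2 ^ l) - g (m * 2 ^ l) - S g (l + q) c / 2 ^ q) := by
      push_cast; ring
    rw [e]
    refine (abs_add_le _ _).trans ?_
    have e2 : (((m + 1 : ℕ) : ℝ) - i) * (τ * 2 ^ l) = ((m : ℝ) - i) * (τ * 2 ^ l) + τ * 2 ^ l := by
      push_cast; ring
    rw [e2]
    unfold S at ih' ⊢
    exact add_le_add ih' h4

open Classical in
/-- the blocks with a deviating sub-block -/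
theorem mart (M r q : ℕ) (τ : ℝ) (hτ : 0 < τ) (hq : q ≤ r) :
    ∑ l ∈ range (r - q + 1), (2 : ℝ) ^ (l + q) *
      (((range (M * 2 ^ (r - (l + q)))).filter (Bad g q τ l)).card : ℝ) ≤
      q * 2 ^ q / τ ^ 2 * ∑ i ∈ range (M * 2 ^ r), (g (i + 1) - g i) ^ 2 := by
  have h1 : ∀ l ∈ range (r - q + 1), (2 : ℝ) ^ (l + q) *
      (((range (M * 2 ^ (r - (l + q)))).filter (Bad g q τ l)).card : ℝ) ≤
      2 ^ q / τ ^ 2 * (En g M r l - En g M r (l + q)) := by
    intro l hl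
    rw [mem_range] at hl
    rw [← En_sub g M r l q (by omega)]
    have h2 : ∀ c ∈ (range (M * 2 ^ (r - (l + q)))).filter (Bad g q τ l), τ ^ 2 * 2 ^ l ≤ Vr g l q c := by
      intro c hc
      rw [mem_filter] at hc
      obtain ⟨c', hc', hbad⟩ := hc.2
      have h3 : (S g l c' - S g (l + q) c / 2 ^ q) ^ 2 / 2 ^ l ≤ Vr g l q c :=
        Finset.single_le_sum (f := fun c' => (S g l c' - S g (l + q) c / 2 ^ q) ^ 2 / 2 ^ l)
          (fun _ _ => by positivity) hc'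
      refine le_trans ?_ h3
      rw [le_div_iff₀ (by positivity)]
      have h4 : (τ * 2 ^ l) ^ 2 ≤ (S g l c' - S g (l + q) c / 2 ^ q) ^ 2 := by
        rw [← sq_abs (S g l c' - S g (l + q) c / 2 ^ q)]
        exact pow_le_pow_left₀ (by positivity) hbad.le 2
      calc τ ^ 2 * 2 ^ l * 2 ^ l = (τ * 2 ^ l) ^ 2 := by ring
        _ ≤ _ := h4
    have h5 : (((range (M * 2 ^ (r - (l + q)))).filter (Bad g q τ l)).card : ℝ) * (τ ^ 2 * 2 ^ l) ≤
        ∑ c ∈ range (M * 2 ^ (r - (l + q))), Vr g l q c := by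
      rw [← nsmul_eq_mul]
      refine (Finset.card_nsmul_le_sum _ _ _ h2).trans ?_
      exact Finset.sum_le_sum_of_subset_of_nonneg (filter_subset _ _) fun c _ _ => Vr_nonneg g _ _ _
    have hτ2 : 0 < τ ^ 2 := by positivity
    calc (2 : ℝ) ^ (l + q) * (((range (M * 2 ^ (r - (l + q)))).filter (Bad g q τ l)).card : ℝ) =
        2 ^ q / τ ^ 2 * ((((range (M * 2 ^ (r - (l + q)))).filter (Bad g q τ l)).card : ℝ) *
          (τ ^ 2 * 2 ^ l)) := by rw [pow_add]; field_simp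
      _ ≤ _ := by gcongr
  refine (Finset.sum_le_sum h1).trans ?_
  rw [← Finset.mul_sum]
  have h2 := sum_drop g M r q hq
  have h3 : En g M r 0 = ∑ i ∈ range (M * 2 ^ r), (g (i + 1) - g i) ^ 2 := by
    unfold En E S
    simp
  rw [h3] at h2
  calc 2 ^ q / τ ^ 2 * ∑ l ∈ range (r - q + 1), (En g M r l - En g M r (l + q)) ≤
      2 ^ q / τ ^ 2 * (q * ∑ i ∈ range (M * 2 ^ r), (g (i + 1) - g i) ^ 2) := by gcongr
    _ = _ := by ring

end Pool.Agent.W123.GS
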