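import Pool.Agent.W123.GS.Main
import Pool.Agent.W123.RU.Pair

set_option autoImplicit false

/-!
# Constant local density of sieved sets at all but boundedly many scales
-/

namespace Pool.Agent.W123.GS

open Finset Filter Pool.Agent.H373R2.T7 Pool.Agent.W123.RP Pool.Agent.W123.RU

open Classical in
theorem sieve_scales (c p0 D D' e : ℕ) (hc : 1 ≤ c) :
    ∃ K0 : ℕ, 2 ≤ K0 ∧ ∀ r : ℕ, K0 ≤ r → ∀ cS C3 : ℝ, 0 < cS → 0 < C3 →
      ∃ c₁ c₂ κ : ℝ, 0 < c₁ ∧ 0 < c₂ ∧ 0 < κ ∧ ∀ δ η : ℝ, 0 < δ → 0 < η →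
      ∃ (K' : ℕ) (lam L0 : ℝ), 0 < lam ∧ ∀ᶠ X : ℕ in atTop,
      ∀ (Q Co : ℕ → ℕ → Prop) (L : ℝ) (E0 : Finset ℕ), Sdata Q Co c p0 D → L0 ≤ L → L ^ 8 ≤ X →
      Vq Q ⌊(X : ℝ) ^ (1 / (r : ℝ))⌋₊ ≤ C3 / L → E0.card ≤ e →
      (∀ h ∈ Icc 1 ⌊L⌋₊, h ∉ E0 → ((pz ⌊(X : ℝ) ^ (1 / (r : ℝ))⌋₊).filter
        (fun p : ℕ => ⌊L⌋₊ < p ∧ Co p h)).card ≤ D' * ⌊L⌋₊) →
      ∀ P P' : ℕ → Prop, (∀ n, P n → P' n) →
      (∀ m, P' m → m ≤ 4 * X → ⌊(X : ℝ) ^ (1 / (r : ℝ))⌋₊ < m →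
        ∀ p ∈ pz ⌊(X : ℝ) ^ (1 / (r : ℝ))⌋₊, ¬ Q p m) →
      cS * X / L ≤ (co P X (2 * X) : ℝ) →
      κ * X ≤ (((Finset.Ioc X (2 * X)).filter (fun n =>
        ((range (Nat.log 2 X + 1)).filter (fun j => L ≤ (2 : ℝ) ^ j ∧
          ¬ Good P c₁ c₂ δ L n j)).card ≤ K')).card : ℝ) ∧
      (((Finset.Ioc X (2 * X)).filter (fun n =>
        K' < ((range (Nat.log 2 X + 1)).filter (fun j => L ≤ (2 : ℝ) ^ j ∧
          ¬ Good P 0 lam δ L n j)).card)).card : ℝ) ≤ η * X := by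
  obtain ⟨K1, hK1, C, hC, x0, hpair⟩ := pair_sum c p0 D D' hc
  refine ⟨max K1 2, le_max_right _ _, ?_⟩
  intro r hr cS C3 hcS hC30
  have hr1 : K1 ≤ r := (le_max_left _ _).trans hr
  have hr2 : 2 ≤ r := (le_max_right _ _).trans hr
  have hrr : (2 : ℝ) ≤ r := by exact_mod_cast hr2
  have hrpos : (0 : ℝ) < r := by linarith
  set C1 : ℝ := 8 * C3 + 3 with hC1
  set C2 : ℝ := C1 + 8 * C * C3 ^ 2 + 2 * e * C1 + 4 with hC2
  have hC10 : 0 < C1 := by positivity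
  have hC20 : 0 < C2 := by positivity
  obtain ⟨c₁, c₂, κ, hc₁, hc₂, hκ, habs⟩ := scales_abs cS C1 C2 hcS hC10 hC20
  refine ⟨c₁, c₂, κ, hc₁, hc₂, hκ, ?_⟩
  intro δ η hδ hη
  obtain ⟨K', lam, B0, hlam, hB0, habs2⟩ := habs δ η hδ hη
  refine ⟨K', lam, (x0 : ℝ) + B0 + 4, hlam, ?_⟩
  have hXr : Tendsto (fun X : ℕ => (X : ℝ)) atTop atTop := tendsto_natCast_atTop_atTop
  have hpow : Tendsto (fun X : ℕ => (X : ℝ) ^ (1 / (2 * r : ℝ))) atTop atTop :=
    (tendsto_rpow_atTop (by positivity)).comp hXr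
  filter_upwards [eventually_ge_atTop 4, hpow.eventually_ge_atTop ((x0 : ℝ) + 2)] with X hX4 e3
  intro Q Co L E0 hS hL hLX8 hVy hE0 hlarge P P' hPP hP'Q hlow
  have hX4r : (4 : ℝ) ≤ X := by exact_mod_cast hX4
  have hXpos : (0 : ℝ) < X := by linarith
  have hx0T : (0 : ℝ) ≤ (x0 : ℝ) := by positivity
  have hL4 : 4 ≤ L := by linarith
  have hL2 : 2 ≤ L := by linarith
  have hL0 : 0 < L := by linarith
  have hsq1 : (1 : ℝ) ≤ (X : ℝ) ^ (1 / 2 : ℝ) := Real.one_le_rpow (by linarith) (by norm_num)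
  have hsqX : (X : ℝ) ^ (1 / 2 : ℝ) * (X : ℝ) ^ (1 / 2 : ℝ) = X := by
    rw [← Real.rpow_add hXpos]; norm_num
  have hsqle : (X : ℝ) ^ (1 / 2 : ℝ) ≤ X := by nlinarith
  have hL4X : L ^ 4 ≤ (X : ℝ) ^ (1 / 2 : ℝ) := by
    have h1 : L ^ 8 = L ^ 4 * L ^ 4 := by ring
    rw [h1, ← hsqX] at hLX8
    by_contra hcon
    rw [not_le] at hcon
    have hs0 : (0 : ℝ) < (X : ℝ) ^ (1 / 2 : ℝ) := by linarith
    have := mul_lt_mul'' hcon hcon hs0.le hs0.le
    linarith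
  have e1 : 4 * L ^ 2 ≤ (X : ℝ) ^ (1 / 2 : ℝ) := by
    refine le_trans ?_ hL4X
    have h1 : L ^ 4 = L ^ 2 * L ^ 2 := by ring
    have h2 : 4 ≤ L ^ 2 := by nlinarith
    rw [h1]
    gcongr
  have e2 : B0 * L ^ 2 ≤ (X : ℝ) ^ (1 / 2 : ℝ) := by
    refine le_trans ?_ hL4X
    have h1 : B0 ≤ L := by linarith
    have h2 : L ≤ L ^ 2 := by nlinarith
    calc B0 * L ^ 2 ≤ L ^ 2 * L ^ 2 := by gcongr; linarith
      _ = L ^ 4 := by ring
  have hsqrt : √(((4 * X : ℕ) : ℝ)) = 2 * (X : ℝ) ^ (1 / 2 : ℝ) := by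
    rw [← Real.sqrt_eq_rpow]
    push_cast
    rw [Real.sqrt_mul (by norm_num)]
    congr 1
    rw [show (4 : ℝ) = 2 ^ 2 by norm_num]
    exact Real.sqrt_sq (by norm_num)
  -- the sieving level
  set y : ℕ := ⌊(X : ℝ) ^ (1 / (r : ℝ))⌋₊ with hy
  have hsplit : (X : ℝ) ^ (1 / (r : ℝ)) = (X : ℝ) ^ (1 / (2 * r : ℝ)) * (X : ℝ) ^ (1 / (2 * r : ℝ)) := by
    rw [← Real.rpow_add hXpos]
    congr 1
    field_simp
    norm_num
  have hylow : (X : ℝ) ^ (1 / (2 * r : ℝ)) ≤ y := by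
    have h1 := Nat.lt_floor_add_one ((X : ℝ) ^ (1 / (r : ℝ)))
    rw [← hy, hsplit] at h1
    have h2 : (2 : ℝ) ≤ (X : ℝ) ^ (1 / (2 * r : ℝ)) := by
      have : (0 : ℝ) ≤ x0 := Nat.cast_nonneg _
      linarith
    nlinarith
  have hyx0 : x0 ≤ y := by
    have : (x0 : ℝ) ≤ y := by linarith
    exact_mod_cast this
  have hy2 : 2 ≤ y := by
    have : (2 : ℝ) ≤ y := by
      have : (0 : ℝ) ≤ x0 := Nat.cast_nonneg _
      linarith
    exact_mod_cast this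
  have hyup : (y : ℝ) ≤ (X : ℝ) ^ (1 / (r : ℝ)) := Nat.floor_le (by positivity)
  have hyhalf : (y : ℝ) ≤ (X : ℝ) ^ (1 / 2 : ℝ) := by
    refine hyup.trans (Real.rpow_le_rpow_of_exponent_le (by linarith) ?_)
    rw [div_le_div_iff₀ hrpos (by norm_num)]
    linarith
  have hyX : y ≤ X := by exact_mod_cast hyhalf.trans hsqle
  have hyr : y ^ r ≤ X := by
    have : ((y ^ r : ℕ) : ℝ) ≤ X := by
      push_cast
      calc (y : ℝ) ^ r ≤ ((X : ℝ) ^ (1 / (r : ℝ))) ^ r := pow_le_pow_left₀ (by positivity) hyup r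
        _ = X := by
          rw [← Real.rpow_natCast, ← Real.rpow_mul hXpos.le]
          rw [one_div, inv_mul_cancel₀ hrpos.ne', Real.rpow_one]
    exact_mod_cast this
  have hyK : y ^ K1 ≤ 4 * X := by
    calc y ^ K1 ≤ y ^ r := Nat.pow_le_pow_right (by omega) hr1
      _ ≤ X := hyr
      _ ≤ 4 * X := by omega
  have hVnn : 0 ≤ Vq Q y := Finset.prod_nonneg fun p hp => one_sub_nonneg Q p (mem_pz.1 hp).2
  obtain ⟨hcnt, hpairs⟩ := hpair (4 * X) y hyx0 hyK Q Co hS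
  -- upper bound for the count
  have hLX : 4 * L ^ 2 ≤ (X : ℝ) ^ (1 / 2 : ℝ) := e1
  have hLL : L ≤ L ^ 2 := by nlinarith
  have hup : (co P' 0 (4 * X) : ℝ) ≤ C1 * X / L := by
    have h1 : co P' 0 (4 * X) ≤ y + ((Icc 1 (4 * X)).filter (fun m => ∀ p ∈ pz y, ¬ Q p m)).card := by
      unfold co
      have : (Ioc 0 (4 * X)).filter P' ⊆ Icc 1 y ∪
          (Icc 1 (4 * X)).filter (fun m => ∀ p ∈ pz y, ¬ Q p m) := by
        intro m hm
        rw [mem_filter, mem_Ioc] at hm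
        rw [mem_union, mem_Icc, mem_filter, mem_Icc]
        rcases Nat.lt_or_ge y m with h | h
        · exact Or.inr ⟨⟨by omega, by omega⟩, hP'Q m hm.2 (by omega) h⟩
        · exact Or.inl ⟨by omega, h⟩
      refine (card_le_card this).trans ((card_union_le _ _).trans ?_)
      rw [Nat.card_Icc, Nat.add_sub_cancel]
    have h2 : (co P' 0 (4 * X) : ℝ) ≤ y +
        (((Icc 1 (4 * X)).filter (fun m => ∀ p ∈ pz y, ¬ Q p m)).card : ℝ) := by exact_mod_cast h1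
    rw [hsqrt] at hcnt
    have h3 : 2 * ((4 * X : ℕ) : ℝ) * Vq Q y ≤ 8 * C3 * X / L := by
      push_cast
      calc 2 * (4 * (X : ℝ)) * Vq Q y ≤ 2 * (4 * X) * (C3 / L) := by gcongr
        _ = 8 * C3 * X / L := by ring
    have h4 : 3 * (X : ℝ) ^ (1 / 2 : ℝ) ≤ 3 * X / L := by
      rw [le_div_iff₀ hL0]
      have : L ≤ (X : ℝ) ^ (1 / 2 : ℝ) := by nlinarith
      calc 3 * (X : ℝ) ^ (1 / 2 : ℝ) * L ≤ 3 * (X : ℝ) ^ (1 / 2 : ℝ) * (X : ℝ) ^ (1 / 2 : ℝ) := by gcongr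
        _ = 3 * X := by rw [mul_assoc, hsqX]
    have h5 : C1 * X / L = 8 * C3 * X / L + 3 * X / L := by rw [hC1]; ring
    rw [h5]
    linarith
  -- second moment
  set T : ℕ := ⌊L⌋₊ with hT
  have hTL : (T : ℝ) ≤ L := Nat.floor_le hL0.le
  have hTlow : L - 1 ≤ T := by
    have := Nat.lt_floor_add_one L
    rw [← hT] at this
    linarith
  have hTx0 : x0 ≤ T := by
    have : (x0 : ℝ) ≤ T := by linarith
    exact_mod_cast this
  have hLX' : 4 * L ≤ X := by nlinarith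
  have hTX : 4 * T ≤ X := by
    have : 4 * (T : ℝ) ≤ X := by linarith
    exact_mod_cast this
  have hT0 : (0 : ℝ) ≤ T := Nat.cast_nonneg T
  have hmom : ∑ n ∈ Finset.Ico X (2 * X + 1), ((co P' n (n + T) : ℝ)) ^ 2 ≤ C2 * X := by
    have h1 := second_moment (P := P') X (X + 1) T
    have e0 : X + (X + 1) = 2 * X + 1 := by ring
    rw [e0] at h1
    have h1r : ∑ n ∈ Finset.Ico X (2 * X + 1), ((co P' n (n + T) : ℝ)) ^ 2 ≤
        T * ((co P' X (X + (X + 1 + T)) : ℝ) + 2 * ∑ h ∈ Finset.Icc 1 T,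
        (((Finset.Ioc X (X + (X + 1 + T))).filter (fun n => P' n ∧ P' (n + h))).card : ℝ)) := by
      exact_mod_cast h1
    have hcoX : (co P' X (X + (X + 1 + T)) : ℝ) ≤ C1 * X / L := by
      refine le_trans ?_ hup
      have a1 : co P' X (X + (X + 1 + T)) ≤ co P' 0 (4 * X) :=
        (co_mono (by omega)).trans (co_anti (Nat.zero_le _))
      exact_mod_cast a1
    set F : ℕ → ℝ := fun h => (((Finset.Ioc X (X + (X + 1 + T))).filter
      (fun n => P' n ∧ P' (n + h))).card : ℝ) with hF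
    set E : Finset ℕ := (Icc 1 T).filter (fun h => ¬ h ∈ E0) with hEdef
    have hsum : ∑ h ∈ Finset.Icc 1 T, F h = ∑ h ∈ (Icc 1 T).filter (fun h => h ∈ E0), F h +
        ∑ h ∈ E, F h := (Finset.sum_filter_add_sum_filter_not _ _ _).symm
    have hs1 : ∑ h ∈ (Icc 1 T).filter (fun h => h ∈ E0), F h ≤ e * (C1 * X / L) := by
      have a1 : ∀ h ∈ (Icc 1 T).filter (fun h => h ∈ E0), F h ≤ C1 * X / L := by
        intro h _
        refine le_trans ?_ hcoX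
        simp only [hF, co]
        have : (Finset.Ioc X (X + (X + 1 + T))).filter (fun n => P' n ∧ P' (n + h)) ⊆
            (Finset.Ioc X (X + (X + 1 + T))).filter P' := by
          intro n hn
          rw [mem_filter] at hn ⊢
          exact ⟨hn.1, hn.2.1⟩
        exact_mod_cast card_le_card this
      have a2 := Finset.sum_le_card_nsmul _ _ _ a1
      rw [nsmul_eq_mul] at a2
      refine a2.trans ?_
      have a3 : (((Icc 1 T).filter (fun h => h ∈ E0)).card : ℝ) ≤ e := by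
        have : ((Icc 1 T).filter (fun h => h ∈ E0)).card ≤ E0.card :=
          card_le_card fun h hh => (mem_filter.1 hh).2
        exact_mod_cast this.trans hE0
      have a4 : 0 ≤ C1 * X / L := by positivity
      exact mul_le_mul_of_nonneg_right a3 a4
    have hs2 : ∑ h ∈ E, F h ≤ C * T * (4 * X : ℕ) * (Vq Q y) ^ 2 + T * √(((4 * X : ℕ) : ℝ)) := by
      refine le_trans ?_ (hpairs T hTx0 E (filter_subset _ _) ?_)
      · apply Finset.sum_le_sum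
        intro h hhE
        have hhT : h ≤ T := by
          rw [hEdef, mem_filter, mem_Icc] at hhE
          exact hhE.1.2
        simp only [hF]
        have : (Finset.Ioc X (X + (X + 1 + T))).filter (fun n => P' n ∧ P' (n + h)) ⊆
            (Icc 1 (4 * X)).filter (fun m => ∀ p ∈ pz y, ¬ Qh Q h p m) := by
          intro n hn
          rw [mem_filter, mem_Ioc] at hn
          rw [mem_filter, mem_Icc]
          refine ⟨⟨by omega, by omega⟩, ?_⟩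
          intro p hp hq
          rcases hq with hq | hq
          · exact hP'Q n hn.2.1 (by omega) (by omega) p hp hq
          · exact hP'Q (n + h) hn.2.2 (by omega) (by omega) p hp hq
        exact_mod_cast card_le_card this
      · intro h hh
        rw [hEdef, mem_filter] at hh
        exact hlarge h hh.1 hh.2
    rw [hsqrt] at hs2
    have hs3 : C * T * ((4 * X : ℕ) : ℝ) * (Vq Q y) ^ 2 ≤ 4 * C * C3 ^ 2 * X / L := by
      push_cast
      calc C * T * (4 * X) * (Vq Q y) ^ 2 ≤ C * L * (4 * X) * (C3 / L) ^ 2 := by gcongr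
        _ = 4 * C * C3 ^ 2 * X / L := by field_simp
    have hs4 : (T : ℝ) * (2 * (X : ℝ) ^ (1 / 2 : ℝ)) ≤ 2 * X / L := by
      rw [le_div_iff₀ hL0]
      have a1 : (T : ℝ) * L ≤ L ^ 2 := by rw [sq]; gcongr
      calc (T : ℝ) * (2 * (X : ℝ) ^ (1 / 2 : ℝ)) * L = (T * L) * (2 * (X : ℝ) ^ (1 / 2 : ℝ)) := by ring
        _ ≤ (X : ℝ) ^ (1 / 2 : ℝ) * (2 * (X : ℝ) ^ (1 / 2 : ℝ)) := by
            have : (T : ℝ) * L ≤ (X : ℝ) ^ (1 / 2 : ℝ) := by nlinarith [sq_nonneg L]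
            gcongr
        _ = 2 * ((X : ℝ) ^ (1 / 2 : ℝ) * (X : ℝ) ^ (1 / 2 : ℝ)) := by ring
        _ = 2 * X := by rw [hsqX]
    have hF2 : ∑ h ∈ Finset.Icc 1 T, F h ≤ (e * C1 + 4 * C * C3 ^ 2 + 2) * X / L := by
      rw [hsum]
      have : (e * C1 + 4 * C * C3 ^ 2 + 2) * X / L = e * (C1 * X / L) + 4 * C * C3 ^ 2 * X / L +
        2 * X / L := by ring
      rw [this]
      linarith
    have hfin : ∀ a S : ℝ, 0 ≤ a → 0 ≤ S → a ≤ C1 * X / L →
        S ≤ (e * C1 + 4 * C * C3 ^ 2 + 2) * X / L → (T : ℝ) * (a + 2 * S) ≤ C2 * X := by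
      intro a S ha hS' ha2 hS2
      have h6 : a + 2 * S ≤ C2 * X / L := by
        have : C2 * X / L = C1 * X / L + 2 * ((e * C1 + 4 * C * C3 ^ 2 + 2) * X / L) := by
          rw [hC2]; ring
        rw [this]
        linarith
      have h7 : 0 ≤ a + 2 * S := by linarith
      calc (T : ℝ) * (a + 2 * S) ≤ L * (C2 * X / L) := mul_le_mul hTL h6 h7 hL0.le
        _ = C2 * X := mul_div_cancel₀ _ hL0.ne'
    exact h1r.trans (hfin _ _ (Nat.cast_nonneg _)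
      (Finset.sum_nonneg fun h _ => Nat.cast_nonneg _) hcoX hF2)
  exact habs2 P P' X L hL2 (e2.trans hsqle) hPP hup hlow hmom

end Pool.Agent.W123.GS
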